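import Pool.Agent.W988.WD.Defs

/-!
# Comparison of projections in a factor (task WD-CMP)
-/

set_option autoImplicit false

namespace Pool.Agent.W67.WD

open Pool.Agent.W988.WD
open scoped InnerProductSpace

section

variable {H : Type} [NormedAddCommGroup H] [InnerProductSpace ℂ H] [CompleteSpace H]

/-- the orthogonal families of partial isometries from `e` to `f` -/
structure Fam (N : VonNeumannAlgebra H) (e f : H →L[ℂ] H) (S : Set (H →L[ℂ] H)) : Prop where
  mem : ∀ v ∈ S, v ∈ N
  nz : ∀ v ∈ S, v ≠ 0
  pi : ∀ v ∈ S, v * star v * v = v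
  ini : ∀ v ∈ S, v * e = v
  fin : ∀ v ∈ S, f * v = v
  ort1 : ∀ v ∈ S, ∀ w ∈ S, v ≠ w → star v * w = 0
  ort2 : ∀ v ∈ S, ∀ w ∈ S, v ≠ w → v * star w = 0

theorem exists_maximal (N : VonNeumannAlgebra H) (e f : H →L[ℂ] H) :
    ∃ S, Maximal (fun S => Fam N e f S) S := by
  refine zorn_subset {S | Fam N e f S} ?_
  intro c hc hch
  refine ⟨⋃₀ c, ⟨?_, ?_, ?_, ?_, ?_, ?_, ?_⟩, fun s hs => Set.subset_sUnion_of_mem hs⟩
  · rintro v ⟨s, hs, hv⟩; exact (hc hs).mem v hv
  · rintro v ⟨s, hs, hv⟩; exact (hc hs).nz v hv
  · rintro v ⟨s, hs, hv⟩; exact (hc hs).pi v hv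
  · rintro v ⟨s, hs, hv⟩; exact (hc hs).ini v hv
  · rintro v ⟨s, hs, hv⟩; exact (hc hs).fin v hv
  · rintro v ⟨s, hs, hv⟩ w ⟨t, ht, hw⟩ hvw
    rcases hch.total hs ht with h | h
    · exact (hc ht).ort1 v (h hv) w hw hvw
    · exact (hc hs).ort1 v hv w (h hw) hvw
  · rintro v ⟨s, hs, hv⟩ w ⟨t, ht, hw⟩ hvw
    rcases hch.total hs ht with h | h
    · exact (hc ht).ort2 v (h hv) w hw hvw
    · exact (hc hs).ort2 v hv w (h hw) hvw

end

theorem p_CMP (h1 : S_LOC) (h2 : S_ZSUM) : S_CMP := by
  intro H _ _ _ N hN e he f hf hpe hpf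
  obtain ⟨S, hS, hmax⟩ := exists_maximal N e f
  obtain ⟨V, hVN, hVpi, hVl, hVr, hk1, hk2⟩ := h2 H N S (fun i => i.1) (fun i => hS.mem _ i.2)
    (fun i => hS.pi _ i.2) (fun i j hij => hS.ort1 _ i.2 _ j.2 (fun h => hij (Subtype.ext h)))
    (fun i j hij => hS.ort2 _ i.2 _ j.2 (fun h => hij (Subtype.ext h)))
  have hVe : V * e = V := by
    ext ξ
    have h3 : V (ξ - e ξ) = 0 := by
      refine hk1 _ fun i => ?_
      have h4 := congrArg (fun T : H →L[ℂ] H => T ξ) (hS.ini _ i.2)
      simp only [ContinuousLinearMap.mul_apply] at h4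
      rw [map_sub, h4, sub_self]
    rw [map_sub, sub_eq_zero] at h3
    rw [ContinuousLinearMap.mul_apply]
    exact h3.symm
  have hsf : star V * f = star V := by
    ext ξ
    have h3 : star V (ξ - f ξ) = 0 := by
      refine hk2 _ fun i => ?_
      have h5 : star i.1 * f = star i.1 := by
        have := congrArg star (hS.fin _ i.2)
        rwa [star_mul, hpf.1] at this
      have h4 := congrArg (fun T : H →L[ℂ] H => T ξ) h5
      simp only [ContinuousLinearMap.mul_apply] at h4
      rw [map_sub, h4, sub_self]
    rw [map_sub, sub_eq_zero] at h3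
    rw [ContinuousLinearMap.mul_apply]
    exact h3.symm
  have hfV : f * V = V := by
    have := congrArg star hsf
    rwa [star_mul, star_star, hpf.1] at this
  have hes : e * star V = star V := by
    have := congrArg star hVe
    rwa [star_mul, hpe.1] at this
  by_cases hc1 : star V * V = e
  · exact Or.inl ⟨V, hVN, hc1, hfV⟩
  by_cases hc2 : V * star V = f
  · exact Or.inr ⟨star V, star_mem hVN, by rw [star_star]; exact hc2, hes⟩
  exfalso
  have hVpi' : star V * V * star V = star V := by
    have := congrArg star hVpi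
    rwa [star_mul, star_mul, star_star, ← mul_assoc] at this
  -- the two rests
  have hpe' : Prj (e - star V * V) := by
    constructor
    · rw [star_sub, star_mul, star_star, hpe.1]
    · have a1 : e * (star V * V) = star V * V := by rw [← mul_assoc, hes]
      have a2 : star V * V * e = star V * V := by rw [mul_assoc, hVe]
      have a3 : star V * V * (star V * V) = star V * V := by rw [← mul_assoc, hVpi']
      rw [sub_mul, mul_sub, mul_sub, hpe.2, a1, a2, a3, sub_self, sub_zero]
  have hpf' : Prj (f - V * star V) := by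
    constructor
    · rw [star_sub, star_mul, star_star, hpf.1]
    · have a1 : f * (V * star V) = V * star V := by rw [← mul_assoc, hfV]
      have a2 : V * star V * f = V * star V := by rw [mul_assoc, hsf]
      have a3 : V * star V * (V * star V) = V * star V := by rw [← mul_assoc, hVpi]
      rw [sub_mul, mul_sub, mul_sub, hpf.2, a1, a2, a3, sub_self, sub_zero]
  obtain ⟨v, hvN, hv0, hvpi, hve, hfv⟩ := h1 H N hN (e - star V * V)
    (sub_mem he (mul_mem (star_mem hVN) hVN)) (f - V * star V)
    (sub_mem hf (mul_mem hVN (star_mem hVN))) hpe' hpf'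
    (fun h => hc1 (sub_eq_zero.mp h).symm) (fun h => hc2 (sub_eq_zero.mp h).symm)
  -- orthogonality
  have hws : ∀ w ∈ S, star w * w * star w = star w := by
    intro w hw
    have := congrArg star (hS.pi w hw)
    rwa [star_mul, star_mul, star_star, ← mul_assoc] at this
  have hl : ∀ w ∈ S, V * (star w * w) = w := fun w hw => hVl ⟨w, hw⟩
  have hr : ∀ w ∈ S, w * star w * V = w := fun w hw => hVr ⟨w, hw⟩
  have hl' : ∀ w ∈ S, star w * w * star V = star w := by
    intro w hw
    have := congrArg star (hl w hw)
    rwa [star_mul, star_mul, star_star] at this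
  have hr' : ∀ w ∈ S, star V * (w * star w) = star w := by
    intro w hw
    have := congrArg star (hr w hw)
    rwa [star_mul, star_mul, star_star] at this
  have ho1 : ∀ w ∈ S, star w * v = 0 := by
    intro w hw
    have a1 : star w * V = star w * w := by
      have := congrArg (fun T => star w * T) (hr w hw)
      rwa [← mul_assoc, ← mul_assoc, hws w hw] at this
    have a2 : star w * (V * star V) = star w := by
      rw [← mul_assoc, a1, hl' w hw]
    have a3 : star w * f = star w := by
      have := congrArg star (hS.fin w hw)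
      rwa [star_mul, hpf.1] at this
    have a4 : star w * (f - V * star V) = 0 := by rw [mul_sub, a3, a2, sub_self]
    rw [← hfv, ← mul_assoc, a4, zero_mul]
  have ho2 : ∀ w ∈ S, v * star w = 0 := by
    intro w hw
    have a1 : V * star w = w * star w := by
      have := congrArg (fun T => T * star w) (hl w hw)
      rwa [mul_assoc, hws w hw] at this
    have a2 : star V * V * star w = star w := by
      rw [mul_assoc, a1, hr' w hw]
    have a3 : e * star w = star w := by
      have := congrArg star (hS.ini w hw)
      rwa [star_mul, hpe.1] at this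
    have a4 : (e - star V * V) * star w = 0 := by rw [sub_mul, a3, a2, sub_self]
    rw [← hve, mul_assoc, a4, mul_zero]
  have hvS : v ∉ S := by
    intro hv
    have := ho1 v hv
    apply hv0
    rw [← hvpi, mul_assoc, this, mul_zero]
  have hve' : v * e = v := by
    have a1 : (e - star V * V) * e = e - star V * V := by
      rw [sub_mul, hpe.2, mul_assoc, hVe]
    rw [← hve, mul_assoc, a1]
  have hfv' : f * v = v := by
    have a1 : f * (f - V * star V) = f - V * star V := by
      rw [mul_sub, hpf.2, ← mul_assoc, hfV]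
    rw [← hfv, ← mul_assoc, a1]
  have hnew : Fam N e f (insert v S) := by
    refine ⟨?_, ?_, ?_, ?_, ?_, ?_, ?_⟩
    · rintro w (rfl | hw)
      · exact hvN
      · exact hS.mem w hw
    · rintro w (rfl | hw)
      · exact hv0
      · exact hS.nz w hw
    · rintro w (rfl | hw)
      · exact hvpi
      · exact hS.pi w hw
    · rintro w (rfl | hw)
      · exact hve'
      · exact hS.ini w hw
    · rintro w (rfl | hw)
      · exact hfv'
      · exact hS.fin w hw
    · rintro w (rfl | hw) w' (rfl | hw') hne
      · exact (hne rfl).elim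
      · have := congrArg star (ho1 w' hw')
        rwa [star_mul, star_star, star_zero] at this
      · exact ho1 w hw
      · exact hS.ort1 w hw w' hw' hne
    · rintro w (rfl | hw) w' (rfl | hw') hne
      · exact (hne rfl).elim
      · exact ho2 w' hw'
      · have := congrArg star (ho2 w hw)
        rwa [star_mul, star_star, star_zero] at this
      · exact hS.ort2 w hw w' hw' hne
  exact hvS (hmax hnew (Set.subset_insert v S) (Set.mem_insert v S))

end Pool.Agent.W67.WD
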